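import Pool.Agent.LeoD.AlgStmts
import Pool.Agent.LeoD.FieldStmts
import Pool.Agent.Helper75_LeoD.Lcg
import Pool.Agent.Helper77_LeoK.Qua

/-! Squad LEOD, module QRD: the integers of `K = k(√(3m))`. -/

set_option autoImplicit false

open NumberField IsDedekindDomain Module Polynomial

namespace Pool.Agent.LeoD.H77

/-- The conjugation is unique. -/
lemma conj_unique {k K : Type} [Field k] [NumberField k] [Field K] [NumberField K] [Algebra k K]
    (hK : finrank k K = 2) {c c' : K ≃ₐ[k] K} (hc : c ≠ 1) (hc' : c' ≠ 1) : c = c' := by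
  have : Algebra.IsQuadraticExtension k K := ⟨hK⟩
  have : IsGalois k K := inferInstance
  have hcard : Nat.card (K ≃ₐ[k] K) = 2 := by rw [IsGalois.card_aut_eq_finrank, hK]
  obtain ⟨y, _, hy⟩ := (Nat.card_eq_two_iff' (1 : K ≃ₐ[k] K)).1 hcard
  exact (hy c hc).trans (hy c' hc').symm

variable {k : Type} [Field k] [NumberField k]

/-- A nonintegral element has a denominator. -/
lemma denom {z : k} (hz : ¬ ∃ j : 𝓞 k, z = (j : k)) :
    ∃ (p : HeightOneSpectrum (𝓞 k)) (a b : 𝓞 k), b ∉ p.asIdeal ∧ a ∈ p.asIdeal ∧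
      z * (a : k) = b := by
  have h1 : ∃ p : HeightOneSpectrum (𝓞 k), ¬ p.valuation k z ≤ 1 := by
    by_contra hcon
    push Not at hcon
    obtain ⟨j, hj⟩ := HeightOneSpectrum.mem_integers_of_valuation_le_one k z hcon
    exact hz ⟨j, hj.symm⟩
  obtain ⟨p, hp⟩ := h1
  push Not at hp
  have hz0 : z ≠ 0 := by
    rintro rfl
    rw [map_zero] at hp
    exact absurd hp (by simp)
  have h2 : p.valuation k z⁻¹ < 1 := by
    rw [map_inv₀]
    exact inv_lt_one_of_one_lt₀ hp
  obtain ⟨a, b, hab⟩ := p.exists_primeCompl_mul_eq_of_integer z⁻¹ h2.le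
  have hb : (b : 𝓞 k) ∉ p.asIdeal := b.2
  refine ⟨p, a, b, hb, ?_, ?_⟩
  · rw [← p.valuation_lt_one_iff_mem (K := k)]
    have h3 : (a : k) = z⁻¹ * ((b : 𝓞 k) : k) := hab.symm
    have h4 : p.valuation k ((b : 𝓞 k) : k) = 1 := p.valuation_eq_one_iff_notMem.2 hb
    change p.valuation k (a : k) < 1
    rw [h3, map_mul, h4, mul_one]
    exact h2
  · have h3 : (a : k) = z⁻¹ * ((b : 𝓞 k) : k) := hab.symm
    rw [h3]
    field_simp

/-- The main point of QRD. -/
theorem inv_of_disc (lcg : LcgStmt) {I : Ideal (𝓞 k)} {m T N : 𝓞 k} {y : k} (hF : Fund I m)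
    (h : (T : k) ^ 2 - 4 * (N : k) = 3 * (m : k) * y ^ 2) : InvI I (3 * y) := by
  intro i hi
  by_contra hcon
  obtain ⟨p, a, b, hb, ha, hab⟩ := denom hcon
  have hI : I ≠ ⊥ := by
    rintro rfl
    have hi0 : i = 0 := hi
    apply hcon
    exact ⟨0, by rw [hi0]; simp⟩
  set v : 𝓞 k := i * a with hv
  have hvI : v ∈ I * p.asIdeal := Ideal.mul_mem_mul hi ha
  have hvy : 3 * y * (v : k) = b := by
    rw [← hab, hv]
    change 3 * y * ((i : k) * (a : k)) = _
    ring
  have hm : b ^ 2 * m = 3 * (T ^ 2 - 4 * N) * v ^ 2 := by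
    apply RingOfIntegers.coe_injective
    change ((b : k) ^ 2 * (m : k)) = (((3 * (T ^ 2 - 4 * N) * v ^ 2 : 𝓞 k)) : k)
    have e : (((3 * (T ^ 2 - 4 * N) * v ^ 2 : 𝓞 k)) : k) =
        3 * ((T : k) ^ 2 - 4 * (N : k)) * (v : k) ^ 2 := by
      simp only [map_mul, map_sub, map_pow, map_ofNat]
    rw [e, h, ← hvy]
    ring
  have h4 : ∀ x : 𝓞 k, x ∈ (I * p.asIdeal) ^ 2 →
      4 * x ∈ Ideal.span {(4 : 𝓞 k)} * (I * p.asIdeal) ^ 2 := fun x hx =>
    Ideal.mul_mem_mul (Ideal.mem_span_singleton_self 4) hx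
  apply hF.loc p
  apply lcg k (I * p.asIdeal) m
  · intro h0
    rcases Ideal.mul_eq_bot.1 h0 with h0 | h0
    · exact hI h0
    · exact p.ne_bot h0
  intro p'
  by_cases hpp : p' = p
  · rw [hpp]
    refine ⟨b, hb, 3 * T * v, Ideal.mul_mem_left _ _ hvI, ?_⟩
    have e : (3 * T * v) ^ 2 + b ^ 2 * m = 4 * (3 * (T ^ 2 - N) * v ^ 2) := by
      rw [hm]; ring
    rw [e]
    apply h4
    apply Ideal.mul_mem_left
    exact Ideal.pow_mem_pow hvI 2
  · obtain ⟨t, htp, htp'⟩ : ∃ t ∈ p.asIdeal, t ∉ p'.asIdeal := by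
      by_contra hcon2
      push Not at hcon2
      apply hpp
      apply HeightOneSpectrum.ext
      exact (p.isMaximal.eq_of_le p'.isPrime.ne_top hcon2).symm
    obtain ⟨q, hq, hqm⟩ := hF.sq
    refine ⟨t, htp', q * t, Ideal.mul_mem_mul hq htp, ?_⟩
    have e : (q * t) ^ 2 + t ^ 2 * m = (q ^ 2 + m) * t ^ 2 := by ring
    rw [e, mul_pow, ← mul_assoc]
    exact Ideal.mul_mem_mul hqm (Ideal.pow_mem_pow htp 2)

omit [NumberField k] in
/-- `y² a / 4` is integral. -/
lemma quarter {I : Ideal (𝓞 k)} {y : k} (hy : InvI I y) {a : 𝓞 k}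
    (ha : a ∈ Ideal.span {(4 : 𝓞 k)} * I ^ 2) : ∃ j : 𝓞 k, y ^ 2 * (a : k) = 4 * (j : k) := by
  obtain ⟨a', ha', rfl⟩ := Ideal.mem_span_singleton_mul.1 ha
  rw [pow_two] at ha'
  have key : ∃ j : 𝓞 k, y ^ 2 * (a' : k) = (j : k) := by
    refine Submodule.mul_induction_on ha' ?_ ?_
    · intro u hu w hw
      obtain ⟨j1, h1⟩ := hy u hu
      obtain ⟨j2, h2⟩ := hy w hw
      refine ⟨j1 * j2, ?_⟩
      change y ^ 2 * ((u : k) * (w : k)) = (j1 : k) * (j2 : k)
      rw [← h1, ← h2]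
      ring
    · rintro u w ⟨j1, h1⟩ ⟨j2, h2⟩
      refine ⟨j1 + j2, ?_⟩
      change y ^ 2 * ((u : k) + (w : k)) = (j1 : k) + (j2 : k)
      rw [← h1, ← h2]
      ring
  obtain ⟨j, hj⟩ := key
  refine ⟨j, ?_⟩
  have e : ((4 * a' : 𝓞 k) : k) = 4 * (a' : k) := by simp only [map_mul, map_ofNat]
  rw [e, ← hj]
  ring

/-- QRD -/
theorem qrd : QrdStmt := by
  intro k K _ _ _ _ _ B m s c hQ hF
  obtain ⟨hK, hs, hn, hcs⟩ := hQ
  have h3m : ((-(3 * m) : 𝓞 k) : k) = -(3 * (m : k)) := by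
    simp only [map_neg, map_mul, map_ofNat]
  have hs' : (s : K) ^ 2 = -algebraMap k K ((-(3 * m) : 𝓞 k) : k) := by
    rw [hs, h3m, map_neg, neg_neg]
  have hn' : ∀ x : k, x ^ 2 ≠ -((-(3 * m) : 𝓞 k) : k) := by
    intro x
    rw [h3m, neg_neg]
    exact hn x
  have hs0 : (s : K) ≠ 0 := by
    intro h0
    apply hn 0
    apply (algebraMap k K).injective
    rw [← hs, h0]
    simp
  have hss : -(s : K) ≠ (s : K) := by
    intro h0
    apply hs0
    linear_combination (-1 / 2 : K) * h0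
  obtain ⟨c', hcs', hcc', hfix'⟩ := Pool.Agent.LeoK.H77.exists_conj hK hs' hn'
  have hc1 : c ≠ 1 := by
    rintro rfl
    exact hss hcs.symm
  have hc1' : c' ≠ 1 := by
    rintro rfl
    exact hss hcs'.symm
  have hcc0 : c = c' := conj_unique hK hc1 hc1'
  subst hcc0
  constructor
  · intro x
    have hfx : c (((x : K) - c x) / s) = ((x : K) - c x) / s := by
      rw [map_div₀, map_sub, hcc', hcs]
      field_simp
      ring
    obtain ⟨y, hy⟩ := hfix' _ hfx
    have hxy : (x : K) - c x = algebraMap k K y * s := by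
      rw [hy]; field_simp
    refine ⟨y, ?_, hxy⟩
    have hcx : IsIntegral ℤ (c (x : K)) :=
      map_isIntegral_int c.toRingEquiv.toRingHom (RingOfIntegers.isIntegral_coe x)
    obtain ⟨T, hT⟩ := hfix' ((x : K) + c x) (by rw [map_add, hcc']; ring)
    obtain ⟨N, hN⟩ := hfix' ((x : K) * c x) (by rw [map_mul, hcc']; ring)
    have hTi : IsIntegral ℤ T := by
      apply Pool.Agent.LeoK.H77.int_down (F := K)
      rw [hT]
      exact (RingOfIntegers.isIntegral_coe x).add hcx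
    have hNi : IsIntegral ℤ N := by
      apply Pool.Agent.LeoK.H77.int_down (F := K)
      rw [hN]
      exact (RingOfIntegers.isIntegral_coe x).mul hcx
    apply inv_of_disc H75.lcg (T := ⟨T, hTi⟩) (N := ⟨N, hNi⟩) hF
    change T ^ 2 - 4 * N = 3 * (m : k) * y ^ 2
    apply (algebraMap k K).injective
    have e1 : algebraMap k K (T ^ 2 - 4 * N) = ((x : K) - c x) ^ 2 := by
      rw [map_sub, map_pow, map_mul, hT, hN, map_ofNat]
      ring
    have e2 : algebraMap k K (3 * (m : k) * y ^ 2) = (s : K) ^ 2 * algebraMap k K y ^ 2 := by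
      rw [map_mul, hs, map_pow]
    rw [e1, e2, hxy]
    ring
  · obtain ⟨q, hq, hqm⟩ := hF.sq
    refine ⟨q, hq, hqm, ?_⟩
    intro y hy
    obtain ⟨j0, hj0⟩ := hy q hq
    have hm2 : m ∈ B.cc ^ 2 := by
      have h1 : q ^ 2 + m ∈ B.cc ^ 2 := Ideal.mul_le_right hqm
      have h2 : q ^ 2 ∈ B.cc ^ 2 := Ideal.pow_mem_pow hq 2
      have h3 := Ideal.sub_mem _ h1 h2
      rwa [add_sub_cancel_left] at h3
    obtain ⟨j1, hj1⟩ := quarter hy hqm
    have h4m : 4 * m ∈ Ideal.span {(4 : 𝓞 k)} * B.cc ^ 2 :=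
      Ideal.mul_mem_mul (Ideal.mem_span_singleton_self 4) hm2
    obtain ⟨j2, hj2⟩ := quarter hy h4m
    have e2 : ((4 * m : 𝓞 k) : k) = 4 * (m : k) := by simp only [map_mul, map_ofNat]
    have e1 : ((q ^ 2 + m : 𝓞 k) : k) = (q : k) ^ 2 + (m : k) := by
      simp only [map_add, map_pow]
    rw [e1] at hj1
    rw [e2] at hj2
    have hk : y ^ 2 * ((q : k) ^ 2 - 3 * (m : k)) = 4 * ((j1 : k) - (j2 : k)) := by
      linear_combination hj1 - hj2
    have hkK := congrArg (algebraMap k K) hk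
    simp only [map_mul, map_sub, map_pow, map_ofNat] at hkK
    have h0K := congrArg (algebraMap k K) hj0
    rw [map_mul] at h0K
    have hs3 : (s : K) ^ 2 = 3 * algebraMap k K (m : k) := by
      rw [hs, map_mul, map_ofNat]
    obtain ⟨w, hw⟩ : ∃ w : K, w = algebraMap k K y * ((algebraMap k K (q : k) + s) / 2) :=
      ⟨_, rfl⟩
    have hwint : IsIntegral ℤ w := by
      have h1 : IsIntegral (𝓞 k) w := by
        refine ⟨X ^ 2 - C j0 * X + C (j1 - j2), ?_, ?_⟩
        · have e : (X ^ 2 - C j0 * X + C (j1 - j2) : (𝓞 k)[X]) =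
              X ^ 2 + (-(C j0 * X) + C (j1 - j2)) := by ring
          rw [e]
          apply monic_X_pow_add
          refine lt_of_le_of_lt (degree_add_le _ _) ?_
          rw [degree_neg]
          apply max_lt
          · refine lt_of_le_of_lt (degree_C_mul_X_le j0) ?_
            norm_num
          · refine lt_of_le_of_lt degree_C_le ?_
            norm_num
        · rw [← aeval_def]
          simp only [map_add, map_sub, map_mul, map_pow, aeval_X, aeval_C]
          rw [IsScalarTower.algebraMap_apply (𝓞 k) k K, IsScalarTower.algebraMap_apply (𝓞 k) k K,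
            IsScalarTower.algebraMap_apply (𝓞 k) k K]
          change w ^ 2 - algebraMap k K (j0 : k) * w +
            (algebraMap k K (j1 : k) - algebraMap k K (j2 : k)) = 0
          rw [hw, ← h0K]
          linear_combination (1 / 4 : K) * algebraMap k K y ^ 2 * hs3 - (1 / 4 : K) * hkK
      exact isIntegral_trans _ h1
    exact ⟨⟨w, hwint⟩, hw⟩

end Pool.Agent.LeoD.H77
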